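import Pool.Agent.helper24.SG.SpecD

set_option autoImplicit false

open MeasureTheory Set Metric Filter Topology
open scoped ENNReal NNReal ComplexConjugate

namespace Pool.Agent.SG

open Classical in
theorem D01_meas (V : ℕ → Set ℂ) (N : ℕ) (hV : ∀ j, MeasurableSet (V j)) :
    MeasurableSet (half V N) := by
  have h1 : Measurable fun ξ : ℂ => ∑ j ∈ Finset.range N, if ξ ∈ V j then 1 else 0 :=
    Finset.measurable_sum _ fun j _ => Measurable.ite (hV j) measurable_const measurable_const
  have e : half V N = circ ∩ {ξ : ℂ | N ≤ 2 * ∑ j ∈ Finset.range N, if ξ ∈ V j then 1 else 0} := by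
    ext ξ
    unfold half
    rw [mem_inter_iff, mem_ofPred_eq, mem_ofPred_eq, Finset.card_filter]
  rw [e]
  refine MeasurableSet.inter isClosed_sphere.measurableSet ?_
  exact measurableSet_le measurable_const (h1.const_mul 2)

open Classical in
theorem D01 : D01_stmt := by
  intro ν V N hν hc hV h34
  have hm := D01_meas V N hV
  refine ⟨hm, ?_⟩
  rcases Nat.eq_zero_or_pos N with h0 | h0
  · have e : circ ⊆ half V N := by
      intro ξ hξ
      refine ⟨hξ, ?_⟩
      rw [h0]
      exact Nat.zero_le _
    have h1 : ν circ = 1 := by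
      have := prob_compl_eq_zero_iff (μ := ν) (s := circ) isClosed_sphere.measurableSet
      exact this.1 hc
    calc (1 : ℝ≥0∞) / 2 ≤ 1 := by
          rw [one_div]
          exact ENNReal.inv_le_one.2 one_le_two
      _ = ν circ := h1.symm
      _ ≤ ν (half V N) := measure_mono e
  · have hpt : ∀ᵐ ξ ∂ν, 2 * ∑ j ∈ Finset.range N, (V j).indicator (fun _ => (1 : ℝ≥0∞)) ξ ≤
        (N : ℝ≥0∞) + N * (half V N).indicator (fun _ => (1 : ℝ≥0∞)) ξ := by
      have hae : ∀ᵐ ξ ∂ν, ξ ∈ circ := by
        rw [ae_iff]
        exact hc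
      filter_upwards [hae] with ξ hξ
      have e1 : ∑ j ∈ Finset.range N, (V j).indicator (fun _ => (1 : ℝ≥0∞)) ξ =
          (((Finset.range N).filter fun j => ξ ∈ V j).card : ℝ≥0∞) := by
        rw [Finset.card_filter, Nat.cast_sum]
        refine Finset.sum_congr rfl fun j _ => ?_
        by_cases h : ξ ∈ V j
        · simp [h]
        · simp [h]
      rw [e1]
      by_cases h : ξ ∈ half V N
      · rw [indicator_of_mem h, mul_one]
        have h2 : ((Finset.range N).filter fun j => ξ ∈ V j).card ≤ N := by
          have := Finset.card_filter_le (Finset.range N) fun j => ξ ∈ V j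
          rwa [Finset.card_range] at this
        have h3 : 2 * ((Finset.range N).filter fun j => ξ ∈ V j).card ≤ N + N := by omega
        exact_mod_cast h3
      · rw [indicator_of_notMem h, mul_zero, add_zero]
        have h2 : 2 * ((Finset.range N).filter fun j => ξ ∈ V j).card ≤ N := by
          by_contra hcon
          exact h ⟨hξ, by omega⟩
        exact_mod_cast h2
    have hint := lintegral_mono_ae hpt
    rw [lintegral_const_mul _ (Finset.measurable_sum _ fun j _ =>
        measurable_const.indicator (hV j)),
      lintegral_finsetSum _ (fun j _ => measurable_const.indicator (hV j)),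
      lintegral_add_left measurable_const, lintegral_const_mul _ (measurable_const.indicator hm),
      lintegral_const, measure_univ, mul_one, lintegral_indicator_const hm, one_mul] at hint
    have e2 : ∀ j ∈ Finset.range N, ∫⁻ ξ, (V j).indicator (fun _ => (1 : ℝ≥0∞)) ξ ∂ν = ν (V j) := by
      intro j _
      rw [lintegral_indicator_const (hV j), one_mul]
    rw [Finset.sum_congr rfl e2] at hint
    have hr := ENNReal.toReal_mono (by
      refine ENNReal.add_ne_top.2 ⟨ENNReal.natCast_ne_top N, ENNReal.mul_ne_top
        (ENNReal.natCast_ne_top N) (measure_ne_top ν _)⟩) hint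
    rw [ENNReal.toReal_mul, ENNReal.toReal_sum fun j _ => measure_ne_top ν _,
      ENNReal.toReal_add (ENNReal.natCast_ne_top N)
        (ENNReal.mul_ne_top (ENNReal.natCast_ne_top N) (measure_ne_top ν _)),
      ENNReal.toReal_mul, ENNReal.toReal_natCast, ENNReal.toReal_ofNat] at hr
    have h5 : ∀ j ∈ Finset.range N, (3 / 4 : ℝ) ≤ (ν (V j)).toReal := by
      intro j _
      have h6 := ENNReal.toReal_mono (measure_ne_top ν _) (h34 j)
      rwa [ENNReal.toReal_div, ENNReal.toReal_ofNat, ENNReal.toReal_ofNat] at h6
    have h7 := Finset.card_nsmul_le_sum (Finset.range N) (fun j => (ν (V j)).toReal) (3 / 4) h5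
    rw [Finset.card_range, nsmul_eq_mul] at h7
    have hN0 : (0 : ℝ) < N := by exact_mod_cast h0
    have h8 : (1 / 2 : ℝ) ≤ (ν (half V N)).toReal := by
      have h9 : (N : ℝ) * (1 / 2) ≤ N * (ν (half V N)).toReal := by linarith
      exact le_of_mul_le_mul_left h9 hN0
    refine (ENNReal.toReal_le_toReal ?_ (measure_ne_top ν _)).1 ?_
    · exact ENNReal.div_ne_top ENNReal.one_ne_top two_ne_zero
    · rwa [ENNReal.toReal_div, ENNReal.toReal_one, ENNReal.toReal_ofNat]

end Pool.Agent.SG
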