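import Pool.Agent.helper3.SG.SpecS

set_option autoImplicit false

open MeasureTheory Set Metric Filter Topology
open scoped ENNReal NNReal ComplexConjugate commutatorElement

namespace Pool.Agent.SG

theorem S12_conj (z : ℂ) (n : ℝ) (h : ‖z‖ = n) : z * conj z = ((n ^ 2 : ℝ) : ℂ) := by
  rw [Complex.mul_conj, Complex.normSq_eq_norm_sq, h]

theorem S12_dev (hS1 : S01_stmt) {Γ : Type} [Group Γ] (A : DiscRep Γ) (K : ℝ) (g h : Γ)
    (hg : ‖A.a g‖ ≤ K) (hb : ‖A.b g‖ ≤ K) :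
    A.dev (g⁻¹ * h) ≤ 2 * K * (‖A.a h - A.a g‖ + ‖A.b h - A.b g‖) := by
  obtain ⟨s1, -, s3⟩ := hS1 Γ A
  obtain ⟨ε', hε', e1, e2⟩ := s3 g
  obtain ⟨ε, hε, e3, e4⟩ := s1 g⁻¹ h
  have hK : 0 ≤ K := (norm_nonneg _).trans hg
  have h1 : conj (A.a g) * A.a g - A.b g * conj (A.b g) = 1 := by
    have h2 := A.norm_eq g
    have h3 := S12_conj (A.a g) _ rfl
    have h4 := S12_conj (A.b g) _ rfl
    rw [mul_comm, h3, h4, ← Complex.ofReal_sub, h2, Complex.ofReal_one]
  have hη : ε * ε' = 1 ∨ ε * ε' = -1 := by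
    rcases hε with rfl | rfl <;> rcases hε' with rfl | rfl <;> norm_num
  have ha : A.a (g⁻¹ * h) = ε * ε' * (1 + (conj (A.a g) * (A.a h - A.a g) -
      A.b g * conj (A.b h - A.b g))) := by
    rw [e3, e1, e2, ← h1, map_sub]
    ring
  have hbb : A.b (g⁻¹ * h) = ε * ε' * (conj (A.a g) * (A.b h - A.b g) -
      A.b g * conj (A.a h - A.a g)) := by
    rw [e4, e1, e2, map_sub]
    ring
  have hnε : ‖ε * ε'‖ = 1 := by
    rcases hη with h | h <;> rw [h] <;> simp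
  have h5 : ‖conj (A.a g) * (A.a h - A.a g) - A.b g * conj (A.b h - A.b g)‖ ≤
      K * (‖A.a h - A.a g‖ + ‖A.b h - A.b g‖) := by
    refine (norm_sub_le _ _).trans ?_
    rw [norm_mul, norm_mul, RCLike.norm_conj, RCLike.norm_conj, mul_add]
    exact add_le_add (mul_le_mul_of_nonneg_right hg (norm_nonneg _))
      (mul_le_mul_of_nonneg_right hb (norm_nonneg _))
  have h6 : ‖A.b (g⁻¹ * h)‖ ≤ K * (‖A.a h - A.a g‖ + ‖A.b h - A.b g‖) := by
    rw [hbb, norm_mul, hnε, one_mul]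
    refine (norm_sub_le _ _).trans ?_
    rw [norm_mul, norm_mul, RCLike.norm_conj, RCLike.norm_conj, mul_add, add_comm]
    exact add_le_add (mul_le_mul_of_nonneg_right hb (norm_nonneg _))
      (mul_le_mul_of_nonneg_right hg (norm_nonneg _))
  have h7 : min ‖A.a (g⁻¹ * h) - 1‖ ‖A.a (g⁻¹ * h) + 1‖ ≤
      K * (‖A.a h - A.a g‖ + ‖A.b h - A.b g‖) := by
    rcases hη with h0 | h0
    · refine (min_le_left _ _).trans ?_
      rw [ha, h0, one_mul, add_sub_cancel_left]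
      exact h5
    · refine (min_le_right _ _).trans ?_
      have e5 : A.a (g⁻¹ * h) + 1 =
          -(conj (A.a g) * (A.a h - A.a g) - A.b g * conj (A.b h - A.b g)) := by
        rw [ha, h0]
        ring
      rw [e5, norm_neg]
      exact h5
  unfold DiscRep.dev
  calc min ‖A.a (g⁻¹ * h) - 1‖ ‖A.a (g⁻¹ * h) + 1‖ + ‖A.b (g⁻¹ * h)‖ ≤
      K * (‖A.a h - A.a g‖ + ‖A.b h - A.b g‖) + K * (‖A.a h - A.a g‖ + ‖A.b h - A.b g‖) :=
        add_le_add h7 h6
    _ = 2 * K * (‖A.a h - A.a g‖ + ‖A.b h - A.b g‖) := by ring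

theorem S12 (hS1 : S01_stmt) : S12_stmt := by
  intro c K hc
  obtain ⟨K', hK'⟩ : ∃ K' : ℝ, K' = max K 1 := ⟨_, rfl⟩
  have hK1 : 1 ≤ K' := by rw [hK']; exact le_max_right _ _
  have hKK : K ≤ K' := by rw [hK']; exact le_max_left _ _
  have hK0 : 0 < K' := by linarith
  have hr : 0 < c / (8 * K') := by positivity
  obtain ⟨t, -, ht, hcov⟩ := (isCompact_closedBall (0 : ℂ × ℂ) K').finite_cover_balls hr
  refine ⟨t.ncard, ?_⟩
  intro Γ _ A hA
  have hba : ∀ g, ‖A.b g‖ ≤ ‖A.a g‖ := by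
    intro g
    have h1 := A.norm_eq g
    have h2 := norm_nonneg (A.a g)
    have h3 := norm_nonneg (A.b g)
    by_contra hcon
    nlinarith
  have hex : ∀ g : Γ, ∃ x : ℂ × ℂ, ‖A.a g‖ ≤ K → x ∈ t ∧ dist (A.a g, A.b g) x < c / (8 * K') := by
    intro g
    by_cases hg : ‖A.a g‖ ≤ K
    · have h1 : (A.a g, A.b g) ∈ closedBall (0 : ℂ × ℂ) K' := by
        rw [mem_closedBall_zero_iff, Prod.norm_def]
        exact max_le (hg.trans hKK) ((hba g).trans (hg.trans hKK))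
      have h2 := hcov h1
      simp only [mem_iUnion, mem_ball, exists_prop] at h2
      obtain ⟨x, hx1, hx2⟩ := h2
      exact ⟨x, fun _ => ⟨hx1, hx2⟩⟩
    · exact ⟨0, fun h => absurd h hg⟩
  choose φ hφ using hex
  have hmaps : MapsTo φ {g | ‖A.a g‖ ≤ K} t := fun g hg => (hφ g hg).1
  have hinj : InjOn φ {g | ‖A.a g‖ ≤ K} := by
    intro g hg h hh heq
    have h1 := (hφ g hg).2
    have h2 := (hφ h hh).2
    rw [← heq] at h2
    have h3 : dist (A.a h, A.b h) (A.a g, A.b g) < 2 * (c / (8 * K')) := by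
      have := dist_triangle_right (A.a h, A.b h) (A.a g, A.b g) (φ g)
      linarith
    rw [Prod.dist_eq, max_lt_iff] at h3
    obtain ⟨h4, h5⟩ := h3
    simp only [dist_eq_norm] at h4 h5
    have h6 := S12_dev hS1 A K' g h (le_trans hg hKK) ((hba g).trans (le_trans hg hKK))
    have h7 : 2 * K' * (‖A.a h - A.a g‖ + ‖A.b h - A.b g‖) < c := by
      have h8 : ‖A.a h - A.a g‖ + ‖A.b h - A.b g‖ < 4 * (c / (8 * K')) := by linarith
      have h9 : 2 * K' * (4 * (c / (8 * K'))) = c := by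
        field_simp
        ring
      calc 2 * K' * (‖A.a h - A.a g‖ + ‖A.b h - A.b g‖) < 2 * K' * (4 * (c / (8 * K'))) :=
            mul_lt_mul_of_pos_left h8 (by positivity)
        _ = c := h9
    by_contra hne
    have h10 : g⁻¹ * h ≠ 1 := by
      intro h0
      exact hne (inv_mul_eq_one.1 h0)
    have h11 := hA _ h10
    linarith
  exact ⟨Set.Finite.of_injOn hmaps hinj ht, ncard_le_ncard_of_injOn φ hmaps hinj ht⟩

end Pool.Agent.SG
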