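import Pool.Agent.helper3.SG.SpecS

set_option autoImplicit false

open MeasureTheory Set Metric Filter Topology
open scoped ENNReal NNReal ComplexConjugate commutatorElement

namespace Pool.Agent.SG

theorem S17_ba {a b : ℂ} (h : ‖a‖ ^ 2 - ‖b‖ ^ 2 = 1) : ‖b‖ < ‖a‖ ∧ 1 ≤ ‖a‖ := by
  have h1 := norm_nonneg a
  have h2 := norm_nonneg b
  constructor
  · by_contra hcon
    nlinarith
  · by_contra hcon
    nlinarith

theorem S17_low {a b ξ : ℂ} (hξ : ‖ξ‖ = 1) : ‖a‖ - ‖b‖ ≤ ‖conj b * ξ + conj a‖ := by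
  have h1 : ‖conj b * ξ‖ = ‖b‖ := by rw [norm_mul, hξ, mul_one, RCLike.norm_conj]
  have h2 : ‖conj a‖ = ‖a‖ := RCLike.norm_conj a
  have h3 := norm_sub_le (conj b * ξ + conj a) (conj b * ξ)
  rw [add_sub_cancel_left] at h3
  linarith

theorem S17_ne {a b ξ : ℂ} (h : ‖a‖ ^ 2 - ‖b‖ ^ 2 = 1) (hξ : ‖ξ‖ = 1) :
    conj b * ξ + conj a ≠ 0 := by
  have h1 := (S17_ba h).1
  have h2 := S17_low (a := a) (b := b) hξ
  intro h0
  rw [h0, norm_zero] at h2
  linarith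

theorem S17_flip (u v : ℂ) {ξ : ℂ} (hξ : ‖ξ‖ = 1) : ‖u * ξ + v‖ = ‖conj v * ξ + conj u‖ := by
  have h1 : ξ * conj ξ = 1 := by
    rw [Complex.mul_conj, Complex.normSq_eq_norm_sq, hξ]
    simp
  have h2 : conj (u * ξ + v) * ξ = conj v * ξ + conj u := by
    rw [map_add, map_mul]
    linear_combination (conj u) * h1
  rw [← h2, norm_mul, hξ, mul_one, RCLike.norm_conj]

theorem S17_mob {p q ξ : ℂ} (h : ‖p‖ ^ 2 - ‖q‖ ^ 2 = 1) (hξ : ‖ξ‖ = 1) : ‖mob p q ξ‖ = 1 := by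
  unfold mob
  rw [norm_div, S17_flip p q hξ]
  exact div_self (norm_ne_zero_iff.2 (S17_ne h hξ))

theorem S17_two {a b p q ξ : ℂ} (h : ‖a‖ ^ 2 - ‖b‖ ^ 2 = 1) (h' : ‖p‖ ^ 2 - ‖q‖ ^ 2 = 1)
    (hξ : ‖ξ‖ = 1) :
    cyc (a * p + b * conj q) (a * q + b * conj p) ξ = cyc a b (mob p q ξ) + cyc p q ξ := by
  have hne := S17_ne h' hξ
  have hne2 := S17_ne h (S17_mob h' hξ)
  have e : conj (a * q + b * conj p) * ξ + conj (a * p + b * conj q) =
      (conj b * mob p q ξ + conj a) * (conj q * ξ + conj p) := by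
    have e1 : mob p q ξ * (conj q * ξ + conj p) = p * ξ + q := by
      unfold mob
      rw [div_mul_cancel₀ _ hne]
    rw [map_add, map_mul, map_mul, map_add, map_mul, map_mul, Complex.conj_conj, Complex.conj_conj]
    linear_combination (-conj b) * e1
  unfold cyc
  rw [e, norm_mul, Real.log_mul (norm_ne_zero_iff.2 hne2) (norm_ne_zero_iff.2 hne)]
  ring

theorem S17_sign {a b ε ξ : ℂ} (hε : ε = 1 ∨ ε = -1) : cyc (ε * a) (ε * b) ξ = cyc a b ξ := by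
  unfold cyc
  rcases hε with rfl | rfl
  · rw [one_mul, one_mul]
  · have e : conj (-1 * b) * ξ + conj (-1 * a) = -(conj b * ξ + conj a) := by
      rw [map_mul, map_mul, map_neg, map_one]
      ring
    rw [e, norm_neg]

theorem S17 (hS1 : S01_stmt) : S17_stmt := by
  refine ⟨?_, ?_, ?_, ?_, ?_⟩
  · intro a b ξ h hξ
    obtain ⟨h1, h2⟩ := S17_ba h
    have h3 := S17_low (a := a) (b := b) hξ
    have h4 : ‖conj b * ξ + conj a‖ ≤ 2 * ‖a‖ := by
      refine (norm_add_le _ _).trans ?_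
      rw [norm_mul, hξ, mul_one, RCLike.norm_conj, RCLike.norm_conj]
      linarith
    have h5 : 1 / (2 * ‖a‖) ≤ ‖conj b * ξ + conj a‖ := by
      refine le_trans ?_ h3
      rw [div_le_iff₀ (by linarith)]
      have h6 : (‖a‖ - ‖b‖) * (‖a‖ + ‖b‖) = 1 := by nlinarith
      have h7 := norm_nonneg b
      nlinarith
    have h8 : 0 < 1 / (2 * ‖a‖) := by positivity
    have h9 : 0 < ‖conj b * ξ + conj a‖ := lt_of_lt_of_le h8 h5
    have h10 := Real.log_le_log h9 h4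
    have h11 := Real.log_le_log h8 h5
    rw [one_div, Real.log_inv] at h11
    unfold cyc
    rw [abs_le]
    constructor <;> linarith
  · intro a b p q ξ h h' hξ
    exact S17_two h h' hξ
  · intro Γ _ A γ δ ξ hξ
    obtain ⟨s1, -, -⟩ := hS1 Γ A
    obtain ⟨ε, hε, e1, e2⟩ := s1 γ δ
    rw [e1, e2, S17_sign hε, S17_two (A.norm_eq γ) (A.norm_eq δ) hξ]
    rfl
  · intro z hz
    have h1 : 0 < 1 - ‖z‖ ^ 2 := by
      have := norm_nonneg z
      nlinarith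
    obtain ⟨s, hs⟩ : ∃ s : ℝ, s = Real.sqrt (1 - ‖z‖ ^ 2) := ⟨_, rfl⟩
    have hs0 : 0 < s := by rw [hs]; exact Real.sqrt_pos.2 h1
    have hs2 : s ^ 2 = 1 - ‖z‖ ^ 2 := by rw [hs]; exact Real.sq_sqrt h1.le
    have hn : ‖((1 / s : ℝ) : ℂ)‖ = 1 / s := by
      rw [Complex.norm_real, Real.norm_eq_abs, abs_of_pos (by positivity)]
    refine ⟨((1 / s : ℝ) : ℂ), -(((1 / s : ℝ) : ℂ) * z), ?_, ?_⟩
    · rw [norm_neg, norm_mul, hn]
      have h2 : (1 / s) ^ 2 * s ^ 2 = 1 := by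
        rw [← mul_pow, one_div_mul_cancel hs0.ne', one_pow]
      rw [hs2] at h2
      linarith
    · intro ξ hξ
      have e : conj (-(((1 / s : ℝ) : ℂ) * z)) * ξ + conj (((1 / s : ℝ) : ℂ)) =
          ((1 / s : ℝ) : ℂ) * (-(conj z) * ξ + 1) := by
        rw [map_neg, map_mul, Complex.conj_ofReal]
        ring
      have e2 : ‖-(conj z) * ξ + 1‖ = ‖ξ - z‖ := by
        rw [S17_flip (-(conj z)) 1 hξ]
        congr 1
        rw [map_one, map_neg, Complex.conj_conj]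
        ring
      have e3 : cyc ((1 / s : ℝ) : ℂ) (-(((1 / s : ℝ) : ℂ) * z)) ξ =
          2 * Real.log ((1 / s) * ‖ξ - z‖) := by
        unfold cyc
        rw [e, norm_mul, hn, e2]
      have e4 : ‖ξ - z‖ ^ 2 / (1 - ‖z‖ ^ 2) = ((1 / s) * ‖ξ - z‖) ^ 2 := by
        rw [← hs2]
        field_simp
      rw [e3]
      unfold bus
      rw [e4, Real.log_pow]
      norm_num
  · intro Γ _ A γ ξ hξ
    obtain ⟨-, -, s3⟩ := hS1 Γ A
    obtain ⟨ε, hε, e1, e2⟩ := s3 γ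
    obtain ⟨-, h2⟩ := S17_ba (A.norm_eq γ)
    have ha0 : A.a γ ≠ 0 := by
      intro h0
      rw [h0, norm_zero] at h2
      linarith
    have hca0 : conj (A.a γ) ≠ 0 := (map_ne_zero _).2 ha0
    have hpt : A.pt γ = A.b γ / conj (A.a γ) := by
      unfold DiscRep.pt DiscRep.act mob
      rw [mul_zero, zero_add, mul_zero, zero_add]
    have e3 : cyc (A.a γ⁻¹) (A.b γ⁻¹) ξ = 2 * Real.log ‖conj (A.a γ) * ξ - A.b γ‖ := by
      have e4 : A.b γ⁻¹ = ε * (-A.b γ) := by rw [e2]; ring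
      rw [e1, e4, S17_sign hε]
      unfold cyc
      have e5 : ‖conj (-A.b γ) * ξ + conj (conj (A.a γ))‖ = ‖conj (A.a γ) * ξ + -A.b γ‖ :=
        (S17_flip (conj (A.a γ)) (-A.b γ) hξ).symm
      rw [e5, sub_eq_add_neg]
    have e6 : ‖ξ - A.pt γ‖ ^ 2 / (1 - ‖A.pt γ‖ ^ 2) = ‖conj (A.a γ) * ξ - A.b γ‖ ^ 2 := by
      have e7 : ξ - A.pt γ = (conj (A.a γ) * ξ - A.b γ) / conj (A.a γ) := by
        rw [hpt]
        field_simp
      have ha1 : 0 < ‖A.a γ‖ := by linarith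
      have e8 : 1 - ‖A.pt γ‖ ^ 2 = 1 / ‖A.a γ‖ ^ 2 := by
        rw [hpt, norm_div, RCLike.norm_conj, div_pow]
        have := A.norm_eq γ
        field_simp
        linarith
      rw [e8, e7, norm_div, RCLike.norm_conj, div_pow]
      field_simp
    rw [e3]
    unfold bus
    rw [e6, Real.log_pow]
    norm_num

end Pool.Agent.SG
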