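import Pool.Agent.helper3.SG.SpecS

set_option autoImplicit false

open MeasureTheory Set Metric Filter Topology
open scoped ENNReal NNReal ComplexConjugate commutatorElement

namespace Pool.Agent.SG

theorem S18_meas (a b : ℂ) : Measurable (cyc a b) := by
  unfold cyc
  refine Measurable.const_mul ?_ 2
  refine Real.measurable_log.comp ?_
  exact (((measurable_id.const_mul _).add_const _)).norm

theorem S18_act {Γ : Type} [Group Γ] (A : DiscRep Γ) (γ : Γ) : Measurable (A.act γ) := by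
  unfold DiscRep.act mob
  exact ((measurable_id.const_mul _).add_const _).div ((measurable_id.const_mul _).add_const _)

theorem S18_circ {p q ξ : ℂ} (h : ‖p‖ ^ 2 - ‖q‖ ^ 2 = 1) (hξ : ‖ξ‖ = 1) : ‖mob p q ξ‖ = 1 := by
  have h1 : ξ * conj ξ = 1 := by
    rw [Complex.mul_conj, Complex.normSq_eq_norm_sq, hξ]
    simp
  have h2 : conj (p * ξ + q) * ξ = conj q * ξ + conj p := by
    rw [map_add, map_mul]
    linear_combination (conj p) * h1
  have h3 : ‖p * ξ + q‖ = ‖conj q * ξ + conj p‖ := by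
    rw [← h2, norm_mul, hξ, mul_one, RCLike.norm_conj]
  have h4 : ‖p‖ - ‖q‖ ≤ ‖p * ξ + q‖ := by
    have h5 := norm_sub_le (p * ξ + q) q
    rw [add_sub_cancel_right, norm_mul, hξ, mul_one] at h5
    linarith
  have h6 : 0 < ‖p‖ - ‖q‖ := by
    have h7 := norm_nonneg p
    have h8 := norm_nonneg q
    by_contra hcon
    nlinarith
  unfold mob
  rw [norm_div, ← h3]
  exact div_self (by linarith)

theorem S18 (hS1 : S01_stmt) (hS17 : S17_stmt) : S18_stmt := by
  intro Γ _ A W ν hst
  obtain ⟨c1, -, c3, -, -⟩ := hS17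
  have hp := hst.prob
  have hae : ∀ᵐ ξ ∂ν, ‖ξ‖ = 1 := by
    rw [ae_iff]
    refine measure_mono_null ?_ hst.supp
    intro ξ hξ
    rw [mem_compl_iff]
    intro h
    exact hξ (mem_sphere_zero_iff_norm.1 h)
  have hint : ∀ a b : ℂ, ‖a‖ ^ 2 - ‖b‖ ^ 2 = 1 → Integrable (cyc a b) ν := by
    intro a b hab
    refine Integrable.of_bound (S18_meas a b).aestronglyMeasurable (2 * Real.log (2 * ‖a‖)) ?_
    filter_upwards [hae] with ξ hξ
    rw [Real.norm_eq_abs]
    exact c1 a b ξ hab hξ
  have hint2 : ∀ (a b : ℂ) (s : Γ), ‖a‖ ^ 2 - ‖b‖ ^ 2 = 1 →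
      Integrable (fun ξ => cyc a b (A.act s ξ)) ν := by
    intro a b s hab
    refine Integrable.of_bound ((S18_meas a b).comp (S18_act A s)).aestronglyMeasurable
      (2 * Real.log (2 * ‖a‖)) ?_
    filter_upwards [hae] with ξ hξ
    rw [Real.norm_eq_abs]
    exact c1 a b _ hab (S18_circ (A.norm_eq s) hξ)
  constructor
  · obtain ⟨-, ⟨ε, hε, e1, e2⟩, -⟩ := hS1 Γ A
    unfold Phi
    have e3 : ∀ ξ : ℂ, cyc (A.a 1) (A.b 1) ξ = 0 := by
      intro ξ
      unfold cyc
      rw [e1, e2, map_zero, zero_mul, zero_add, RCLike.norm_conj]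
      have : ‖ε‖ = 1 := by rcases hε with rfl | rfl <;> simp
      rw [this, Real.log_one, mul_zero]
    simp only [e3, integral_zero]
  · intro γ
    have hab := A.norm_eq γ
    have hμ : ∀ s ∈ W.S, W.μ s ≠ ⊤ := by
      intro s hs
      have h1 : W.μ s ≤ ∑ s ∈ W.S, W.μ s := Finset.single_le_sum (fun _ _ => zero_le) hs
      rw [W.sum] at h1
      exact ne_top_of_le_ne_top ENNReal.one_ne_top h1
    have h2 : Phi ν (A.a γ) (A.b γ) =
        ∑ s ∈ W.S, (W.μ s).toReal * ∫ ξ, cyc (A.a γ) (A.b γ) (A.act s ξ) ∂ν := by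
      have h3 : Phi ν (A.a γ) (A.b γ) =
          ∫ ξ, cyc (A.a γ) (A.b γ) ξ ∂(∑ s ∈ W.S, W.μ s • ν.map (A.act s)) := by
        rw [← hst.stat]
        rfl
      rw [h3, integral_finsetSum_measure]
      · refine Finset.sum_congr rfl fun s hs => ?_
        rw [integral_smul_measure, smul_eq_mul,
          integral_map (S18_act A s).aemeasurable (S18_meas _ _).aestronglyMeasurable]
      · intro s hs
        refine Integrable.smul_measure ?_ (hμ s hs)
        exact (integrable_map_measure (S18_meas _ _).aestronglyMeasurable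
          (S18_act A s).aemeasurable).2 (hint2 _ _ s hab)
    unfold Walk.avr ell
    rw [h2, ← Finset.sum_add_distrib]
    refine Finset.sum_congr rfl fun s hs => ?_
    have h4 : Phi ν (A.a (γ * s)) (A.b (γ * s)) =
        (∫ ξ, cyc (A.a γ) (A.b γ) (A.act s ξ) ∂ν) + Phi ν (A.a s) (A.b s) := by
      unfold Phi
      rw [← integral_add (hint2 _ _ s hab) (hint _ _ (A.norm_eq s))]
      refine integral_congr_ae ?_
      filter_upwards [hae] with ξ hξ
      exact c3 Γ A γ s ξ hξ
    show (W.μ s).toReal * Phi ν (A.a (γ * s)) (A.b (γ * s)) = _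
    rw [h4]
    ring

end Pool.Agent.SG
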