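import Pool.Agent.helper80.SG.Spec
import Pool.Agent.helper72.SV.RKL

set_option autoImplicit false
set_option linter.unusedSectionVars false

namespace Pool.Agent.SG

open MvPolynomial Module Pool.Agent.SV

theorem RLS_rank {E W : Type} [AddCommGroup E] [Module ℂ E] [AddCommGroup W] [Module ℂ W]
    [Module.Finite ℂ W] {I : Type} [Fintype I]
    (L : E →ₗ[ℂ] W) (v : I → W) (hv : LinearIndependent ℂ v)
    (h : ∀ i, ∃ e, L e = v i) : Fintype.card I ≤ finrank ℂ (LinearMap.range L) := by
  choose e he using h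
  let w : I → LinearMap.range L := fun i => ⟨v i, e i, he i⟩
  have hw : LinearIndependent ℂ w := by
    refine LinearIndependent.of_comp (LinearMap.range L).subtype ?_
    exact hv
  exact hw.fintype_card_le_finrank

section
variable {ι κ : Type} [Fintype ι] [DecidableEq ι] [Fintype κ] [DecidableEq κ]

/-- the indicator function of the `o k` -/
def RLS_e (c : ι → κ) (o : κ → ι) : ι → ℂ := fun i => if i = o (c i) then 1 else 0

/-- the exponents for the index `s` -/
noncomputable def RLS_m (c : ι → κ) (o : κ → ι) (d : κ → ℕ) {I : Finset ι} (s : Option I) :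
    ι →₀ ℕ := s.elim (RKL_D c o d) fun i => RKL_M c o d i.1

/-- the gradients at `e_o` -/
noncomputable def RLS_v (c : ι → κ) (o : κ → ι) (d : κ → ℕ) {I : Finset ι} (s : Option I) :
    ι → ℂ := s.elim (fun j => if j = o (c j) then (d (c j) : ℂ) else 0) fun i => Pi.single i.1 1

/-- the indices -/
def RLS_I (c : ι → κ) (o : κ → ι) (d : κ → ℕ) : Finset ι :=
  Finset.univ.filter (fun i => 1 ≤ d (c i) ∧ i ≠ o (c i))

theorem RLS_indep (c : ι → κ) (o : κ → ι) (d : κ → ℕ) (ho : ∀ k, c (o k) = k)
    (hd : ∃ k, 1 ≤ d k) : LinearIndependent ℂ (RLS_v c o d (I := RLS_I c o d)) := by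
  classical
  rw [linearIndependent_option]
  constructor
  · have h1 := (Pi.basisFun ℂ ι).linearIndependent.comp (fun i : RLS_I c o d => i.1)
      Subtype.val_injective
    have h2 : (⇑(Pi.basisFun ℂ ι) ∘ fun i : RLS_I c o d => i.1) =
        (fun i : RLS_I c o d => Pi.single i.1 (1 : ℂ)) := by
      funext i
      exact Pi.basisFun_apply ℂ ι i.1
    rw [h2] at h1
    exact h1
  · intro hmem
    obtain ⟨k, hk⟩ := hd
    have h1 : Submodule.span ℂ (Set.range (RLS_v c o d (I := RLS_I c o d) ∘ some)) ≤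
        LinearMap.ker (LinearMap.proj (o k) : (ι → ℂ) →ₗ[ℂ] ℂ) := by
      rw [Submodule.span_le]
      rintro _ ⟨i, rfl⟩
      show (Pi.single i.1 (1 : ℂ) : ι → ℂ) (o k) = 0
      apply Pi.single_eq_of_ne
      intro h
      have h2 := (Finset.mem_filter.1 i.2).2.2
      apply h2
      rw [← h, ho]
    have h2 : (RLS_v c o d (I := RLS_I c o d) none : ι → ℂ) (o k) = 0 := h1 hmem
    have h3 : (RLS_v c o d (I := RLS_I c o d) none : ι → ℂ) (o k) = (d k : ℂ) := by
      show (if o k = o (c (o k)) then (d (c (o k)) : ℂ) else 0) = _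
      rw [ho, if_pos rfl]
    rw [h3] at h2
    have : d k = 0 := by exact_mod_cast h2
    omega

theorem RLS_card (c : ι → κ) (o : κ → ι) (d : κ → ℕ) (ho : ∀ k, c (o k) = k) :
    Fintype.card (Option (RLS_I c o d)) = Dk c Finset.univ d := by
  classical
  rw [Fintype.card_option, Fintype.card_coe]
  unfold Dk
  rw [Nat.add_comm]
  congr 1
  rw [Finset.card_eq_sum_card_fiberwise (f := c)
    (t := Finset.univ.filter (fun k => 1 ≤ d k))]
  · apply Finset.sum_congr rfl
    intro k hk
    rw [Finset.mem_filter] at hk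
    have h1 : (RLS_I c o d).filter (fun i => c i = k) =
        (Finset.univ.filter (fun i => c i = k)).erase (o k) := by
      ext i
      simp only [RLS_I, Finset.mem_filter, Finset.mem_erase, Finset.mem_univ, true_and]
      constructor
      · rintro ⟨⟨h2, h3⟩, h4⟩
        refine ⟨?_, h4⟩
        rw [← h4]
        exact h3
      · rintro ⟨h1, h3⟩
        refine ⟨⟨?_, ?_⟩, h3⟩
        · rw [h3]
          exact hk.2
        · rw [h3]
          exact h1
    rw [h1, Finset.card_erase_of_mem]
    rw [Finset.mem_filter]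
    exact ⟨Finset.mem_univ _, ho k⟩
  · intro i hi
    have := (Finset.mem_filter.1 hi).2.1
    simp only [Finset.coe_filter, Finset.mem_univ, true_and]
    exact this

theorem RLS_mem (c : ι → κ) (o : κ → ι) (d : κ → ℕ) (ho : ∀ k, c (o k) = k)
    (s : Option (RLS_I c o d)) : monomial (RLS_m c o d s) (1 : ℂ) ∈ Sec c Finset.univ d := by
  rcases s with _ | ⟨i, hi⟩
  · exact RKL_mono c _ d _ (RKL_D_mem c _ o ho (fun _ => Finset.mem_univ _) d)
  · exact RKL_mono c _ d _ (RKL_M_mem c _ o ho (fun _ => Finset.mem_univ _) d i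
      (Finset.mem_univ _) (Finset.mem_filter.1 hi).2.1)

theorem RLS_grad (c : ι → κ) (o : κ → ι) (d : κ → ℕ) (s : Option (RLS_I c o d)) (j : ι) :
    eval (RLS_e c o) (pderiv j (monomial (RLS_m c o d s) (1 : ℂ))) = RLS_v c o d s j := by
  have hx1 : ∀ i, i = o (c i) → RLS_e c o i = 1 := fun i h => if_pos h
  have hx0 : ∀ i, i ≠ o (c i) → RLS_e c o i = 0 := fun i h => if_neg h
  rcases s with _ | ⟨i, hi⟩
  · show eval (RLS_e c o) (pderiv j (monomial (RKL_D c o d) (1 : ℂ))) =
      (if j = o (c j) then (d (c j) : ℂ) else 0)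
    rw [RKL_eval]
    have h1 : ∏ i, RLS_e c o i ^ ((RKL_D c o d - Finsupp.single j 1 : ι →₀ ℕ) i) = 1 := by
      apply Finset.prod_eq_one
      intro i _
      by_cases h : i = o (c i)
      · rw [hx1 i h, one_pow]
      · have : (RKL_D c o d - Finsupp.single j 1 : ι →₀ ℕ) i = 0 := by
          rw [Finsupp.tsub_apply, RKL_D_apply, if_neg h, Nat.zero_sub]
        rw [this, pow_zero]
    rw [h1, mul_one, RKL_D_apply]
    by_cases h : j = o (c j)
    · rw [if_pos h, if_pos h]
    · rw [if_neg h, if_neg h, Nat.cast_zero]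
  · obtain ⟨-, hid, hio⟩ := Finset.mem_filter.1 hi
    show eval (RLS_e c o) (pderiv j (monomial (RKL_M c o d i) (1 : ℂ))) =
      (Pi.single i (1 : ℂ) : ι → ℂ) j
    by_cases hji : j = i
    · subst hji
      rw [Pi.single_eq_same, RKL_eval]
      have h1 : ∏ i', RLS_e c o i' ^ ((RKL_M c o d j - Finsupp.single j 1 : ι →₀ ℕ) i') = 1 := by
        apply Finset.prod_eq_one
        intro i' _
        by_cases h : i' = o (c i')
        · rw [hx1 i' h, one_pow]
        · have : (RKL_M c o d j - Finsupp.single j 1 : ι →₀ ℕ) i' = 0 := by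
            rw [Finsupp.tsub_apply, RKL_M_apply, if_neg h, Finsupp.single_apply]
            by_cases h2 : i' = j
            · rw [if_pos h2, if_pos h2.symm]
            · rw [if_neg h2, if_neg (Ne.symm h2)]
              rfl
          rw [this, pow_zero]
      rw [h1, mul_one, RKL_M_apply, if_pos rfl, if_neg hio]
      norm_num
    · rw [Pi.single_eq_of_ne hji, RKL_eval]
      have h1 : ∏ i', RLS_e c o i' ^ ((RKL_M c o d i - Finsupp.single j 1 : ι →₀ ℕ) i') = 0 := by
        apply Finset.prod_eq_zero (Finset.mem_univ i)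
        have : (RKL_M c o d i - Finsupp.single j 1 : ι →₀ ℕ) i = 1 := by
          rw [Finsupp.tsub_apply, RKL_M_apply, if_pos rfl, if_neg hio, Finsupp.single_apply,
            if_neg hji]
          rfl
        rw [this, pow_one, hx0 i hio]
      rw [h1, mul_zero]

/-- at least two factors `X_{o k}`, `k ∈ T` -/
theorem RLS_two (c : ι → κ) (o : κ → ι) (d : κ → ℕ) (T : Finset κ) (ho : ∀ k, c (o k) = k)
    (hT : ∀ k ∈ T, 1 ≤ d k) (hs : ∑ k ∈ T, d k = 3) (s : Option (RLS_I c o d)) :
    2 ≤ ∑ k ∈ T, RLS_m c o d s (o k) := by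
  rcases s with _ | ⟨i, hi⟩
  · show 2 ≤ ∑ k ∈ T, RKL_D c o d (o k)
    have h1 : ∀ k ∈ T, RKL_D c o d (o k) = d k := by
      intro k _
      rw [RKL_D_apply, ho, if_pos rfl]
    rw [Finset.sum_congr rfl h1, hs]
    norm_num
  · show 2 ≤ ∑ k ∈ T, RKL_M c o d i (o k)
    have h1 : ∀ k ∈ T, d k ≤ RKL_M c o d i (o k) + (if k = c i then 1 else 0) := by
      intro k hk
      rw [RKL_M_apply, ho, if_pos rfl]
      have := hT k hk
      split_ifs <;> omega
    have h2 := Finset.sum_le_sum h1
    rw [Finset.sum_add_distrib, hs, Finset.sum_ite_eq'] at h2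
    have h3 : (if c i ∈ T then 1 else 0) ≤ 1 := by split_ifs <;> norm_num
    omega

/-- a monomial with at least two factors `X_{o k}`, `k ∈ T`, has gradient zero at points where these
coordinates vanish -/
theorem RLS_zero (c : ι → κ) (o : κ → ι) (T : Finset κ) (ho : ∀ k, c (o k) = k) (m : ι →₀ ℕ)
    (hm : 2 ≤ ∑ k ∈ T, m (o k)) (x : ι → ℂ) (hx : ∀ k ∈ T, x (o k) = 0) (j : ι) :
    eval x (pderiv j (monomial m (1 : ℂ))) = 0 := by
  rw [RKL_eval]
  have h1 : ∃ k ∈ T, 1 ≤ (m - Finsupp.single j 1 : ι →₀ ℕ) (o k) := by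
    by_contra hcon
    push Not at hcon
    have h2 : ∀ k ∈ T, m (o k) ≤ if k = c j then 1 else 0 := by
      intro k hk
      have h3 := hcon k hk
      rw [Finsupp.tsub_apply, Finsupp.single_apply] at h3
      by_cases h4 : j = o k
      · have h5 : k = c j := by rw [h4, ho]
        rw [if_pos h4] at h3
        rw [if_pos h5]
        omega
      · rw [if_neg h4] at h3
        have h6 : m (o k) = 0 := by omega
        rw [h6]
        exact Nat.zero_le _
    have h7 := Finset.sum_le_sum h2
    rw [Finset.sum_ite_eq'] at h7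
    have h8 : (if c j ∈ T then 1 else 0) ≤ 1 := by split_ifs <;> norm_num
    omega
  obtain ⟨k, hk, h2⟩ := h1
  rw [Finset.prod_eq_zero (Finset.mem_univ (o k)), mul_zero]
  rw [hx k hk, zero_pow (by omega)]

end

theorem RLS : RLS_stmt := by
  classical
  intro ι κ _ _ _ _ c T d hcol hT hTT hs
  choose o ho using hcol
  have hd : ∃ k, 1 ≤ d k := by
    have hne : T.Nonempty := by
      rw [Finset.nonempty_iff_ne_empty]
      intro h
      rw [h, Finset.sum_empty] at hs
      exact absurd hs (by norm_num)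
    obtain ⟨k, hk⟩ := hne
    exact ⟨k, hT k hk⟩
  have hex : ∀ k, ∃ i, c i = k ∧ (k ∈ T → i ≠ o k) ∧ (k ∉ T → i = o k) := by
    intro k
    by_cases hk : k ∈ T
    · obtain ⟨i, i', h1, h2, h3⟩ := hTT k hk
      by_cases h4 : i = o k
      · exact ⟨i', h3, fun _ h5 => h1 (h4.trans h5.symm), fun h => absurd hk h⟩
      · exact ⟨i, h2, fun _ => h4, fun h => absurd hk h⟩
    · exact ⟨o k, ho k, fun h => absurd h hk, fun _ => rfl⟩
  choose o' ho' hne heq using hex
  obtain ⟨P, hP⟩ : ∃ P : (ι → ℂ) × (ι → ℂ), P = (RLS_e c o, RLS_e c o') := ⟨_, rfl⟩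
  have hP0 : ptc c T 0 P = RLS_e c o := by
    funext i
    unfold ptc
    rw [hP]
    simp
  have hP1 : ptc c T 1 P = RLS_e c o' := by
    funext i
    unfold ptc
    rw [hP]
    by_cases h : c i ∈ T
    · simp [h]
    · have h1 := heq (c i) h
      simp only [h, if_false]
      unfold RLS_e
      rw [h1]
  have hx : ∀ k ∈ T, RLS_e c o' (o k) = 0 := by
    intro k hk
    unfold RLS_e
    rw [ho, if_neg]
    exact fun h => hne k hk h.symm
  have hx' : ∀ k ∈ T, RLS_e c o (o' k) = 0 := by
    intro k hk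
    unfold RLS_e
    rw [ho', if_neg]
    exact hne k hk
  refine ⟨P, ?_⟩
  let π : (Option (Fin 3 × Option ι) → ℂ) →ₗ[ℂ] (ι → ℂ) × (ι → ℂ) :=
    LinearMap.prod (LinearMap.pi fun i => LinearMap.proj (some ((0 : Fin 3), some i)))
      (LinearMap.pi fun i => LinearMap.proj (some ((1 : Fin 3), some i)))
  have hπ : ∀ f : ↥(Sec c Finset.univ d), (π ∘ₗ roleS c T d 3 P) f =
      (fun i => eval (RLS_e c o) (pderiv i (f : MvPolynomial ι ℂ)),
        fun i => eval (RLS_e c o') (pderiv i (f : MvPolynomial ι ℂ))) := by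
    intro f
    refine Prod.ext ?_ ?_
    · funext i
      show roleS c T d 3 P f (some ((0 : Fin 3), some i)) = _
      simp [roleS, roleL, used, roleF, hP0]
    · funext i
      show roleS c T d 3 P f (some ((1 : Fin 3), some i)) = _
      simp [roleS, roleL, used, roleF, hP1]
  have h1 : finrank ℂ (LinearMap.range (π ∘ₗ roleS c T d 3 P)) ≤
      finrank ℂ (LinearMap.range (roleS c T d 3 P)) := by
    rw [LinearMap.range_comp]
    exact Submodule.finrank_map_le _ _
  refine le_trans ?_ h1
  have hli := linearIndependent_inl_union_inr' (RLS_indep c o d ho hd) (RLS_indep c o' d ho' hd)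
  have hcard : Fintype.card (Option (RLS_I c o d) ⊕ Option (RLS_I c o' d)) =
      2 * Dk c Finset.univ d := by
    rw [Fintype.card_sum, RLS_card c o d ho, RLS_card c o' d ho', two_mul]
  rw [← hcard]
  refine RLS_rank _ _ hli ?_
  rintro (s | s)
  · refine ⟨⟨_, RLS_mem c o d ho s⟩, ?_⟩
    rw [hπ]
    refine Prod.ext ?_ ?_
    · funext i
      exact RLS_grad c o d s i
    · funext i
      exact RLS_zero c o T ho _ (RLS_two c o d T ho hT hs s) _ hx i
  · refine ⟨⟨_, RLS_mem c o' d ho' s⟩, ?_⟩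
    rw [hπ]
    refine Prod.ext ?_ ?_
    · funext i
      exact RLS_zero c o' T ho' _ (RLS_two c o' d T ho' hT hs s) _ hx' i
    · funext i
      exact RLS_grad c o' d s i

end Pool.Agent.SG
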